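import Mathlib
import Pool.Agent.H26.SwapSign

set_option autoImplicit false

namespace Pool.Agent.Results.MP_425159_co.Parity

open Pool.Agent.H26.SwapSign

def IsQuasigroup {S : Type} (op : S → S → S) : Prop :=
  (∀ a b : S, ∃! x : S, op a x = b) ∧ (∀ a b : S, ∃! x : S, op x a = b)

def IdentE {S : Type} (op : S → S → S) : Prop :=
  ∀ x y : S, op (op (op x y) x) y = x

theorem result :
    ∀ (S : Type) [Finite S] [Nonempty S] (op : S → S → S), IsQuasigroup op → IdentE op →
      Nat.card S % 4 = 0 ∨ Nat.card S % 4 = 1 := by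
  intro S _ _ op hq hi
  classical
  haveI := Fintype.ofFinite S
  rw [Nat.card_eq_fintype_card]
  apply mod_four
  have key : rho op hq.2 * ((Equiv.prodComm S S : Equiv.Perm (S × S)) *
      (lam op hq.1 * rho op hq.2)) = lam op hq.1 := by
    apply Equiv.ext
    rintro ⟨a, y⟩
    show (op (op (op a y) y) (op a y), op a y) = (a, op a y)
    have h1 : op (op (op a y) y) (op a y) = a :=
      (hq.2 y (op a y)).unique (hi (op a y) y) rfl
    rw [h1]
  have hs := congrArg Equiv.Perm.sign key
  rw [map_mul, map_mul, map_mul] at hs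
  generalize Equiv.Perm.sign (rho op hq.2) = r at hs
  generalize Equiv.Perm.sign (lam op hq.1) = l at hs
  generalize Equiv.Perm.sign (Equiv.prodComm S S : Equiv.Perm (S × S)) = s at hs
  rcases Int.units_eq_one_or r with rfl | rfl <;> rcases Int.units_eq_one_or l with rfl | rfl <;>
    rcases Int.units_eq_one_or s with rfl | rfl <;> first | rfl | exact absurd hs (by decide)

end Pool.Agent.Results.MP_425159_co.Parity
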